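import Mathlib

/-!
# MTL-algebras, formulas, axiomatic extensions of MTL, the deductive interpolation property
-/

set_option autoImplicit false

namespace Pool.Agent.V11238.MTL

/-- MTL-algebras: `(A, ∧, ∨, 0, 1)` is a bounded lattice with least element `⊥` and greatest
element `⊤`, `(A, ·, 1)` is a commutative monoid whose unit is the greatest element, and
residuation and prelinearity hold. -/
class MTLAlgebra (A : Type) extends Lattice A, BoundedOrder A, CommMonoid A where
  /-- the residuum `x → y` -/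
  res : A → A → A
  /-- the unit of the monoid is the greatest element -/
  one_eq_top : (1 : A) = ⊤
  /-- residuation -/
  residuation : ∀ x y z : A, x * y ≤ z ↔ x ≤ res y z
  /-- prelinearity -/
  prelinearity : ∀ x y : A, res x y ⊔ res y x = 1

/-- Formulas in the language `{∧, ∨, ·, →, 0, 1}` over the variables `var 0, var 1, ...`. -/
inductive Fm : Type
  | var : ℕ → Fm
  | and : Fm → Fm → Fm
  | or : Fm → Fm → Fm
  | mul : Fm → Fm → Fm
  | imp : Fm → Fm → Fm
  | zero : Fm
  | one : Fm

/-- The value of a formula under the valuation `v` in an MTL-algebra. -/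
def eval {A : Type} [MTLAlgebra A] (v : ℕ → A) : Fm → A
  | .var n => v n
  | .and φ ψ => eval v φ ⊓ eval v ψ
  | .or φ ψ => eval v φ ⊔ eval v ψ
  | .mul φ ψ => eval v φ * eval v ψ
  | .imp φ ψ => MTLAlgebra.res (eval v φ) (eval v ψ)
  | .zero => ⊥
  | .one => 1

/-- The variables of a formula. -/
def vars : Fm → Set ℕ
  | .var n => {n}
  | .and φ ψ => vars φ ∪ vars ψ
  | .or φ ψ => vars φ ∪ vars ψ
  | .mul φ ψ => vars φ ∪ vars ψ
  | .imp φ ψ => vars φ ∪ vars ψ
  | .zero => ∅
  | .one => ∅

/-- The result of substituting the formula `σ n` for every variable `var n`. -/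
def subst (σ : ℕ → Fm) : Fm → Fm
  | .var n => σ n
  | .and φ ψ => .and (subst σ φ) (subst σ ψ)
  | .or φ ψ => .or (subst σ φ) (subst σ ψ)
  | .mul φ ψ => .mul (subst σ φ) (subst σ ψ)
  | .imp φ ψ => .imp (subst σ φ) (subst σ ψ)
  | .zero => .zero
  | .one => .one

/-- The consequence relation of MTL: every valuation into every MTL-algebra sending all of `Γ`
to `1` sends `φ` to `1`. -/
def Conseq (Γ : Set Fm) (φ : Fm) : Prop :=
  ∀ (A : Type) [MTLAlgebra A] (v : ℕ → A), (∀ γ ∈ Γ, eval v γ = 1) → eval v φ = 1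

/-- The set `S` of formulas is closed under substitution. -/
def SubstClosed (S : Set Fm) : Prop := ∀ φ ∈ S, ∀ σ : ℕ → Fm, subst σ φ ∈ S

/-- The axiomatic extension of MTL by the set `S` of new axioms: `Ext S Γ φ` says that `φ` can be
derived from the premises `Γ`, the theorems of MTL and the axioms `S` by modus ponens. -/
inductive Ext (S Γ : Set Fm) : Fm → Prop
  | prem {φ : Fm} : φ ∈ Γ → Ext S Γ φ
  | ax {φ : Fm} : φ ∈ S → Ext S Γ φ
  | thm {φ : Fm} : Conseq ∅ φ → Ext S Γ φ
  | mp {φ ψ : Fm} : Ext S Γ (.imp φ ψ) → Ext S Γ φ → Ext S Γ ψ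

/-- The deductive interpolation property of the axiomatic extension of MTL by `S`: whenever `φ`
follows from `Γ`, there is a set `Δ` of formulas whose variables are common to `Γ` and `φ`, all of
which follow from `Γ`, and from which `φ` follows. -/
def DIP (S : Set Fm) : Prop :=
  ∀ (Γ : Set Fm) (φ : Fm), Ext S Γ φ → ∃ Δ : Set Fm,
    (∀ δ ∈ Δ, vars δ ⊆ (⋃ γ ∈ Γ, vars γ) ∩ vars φ) ∧ (∀ δ ∈ Δ, Ext S Γ δ) ∧ Ext S Δ φ

/-! ### basic facts -/

section basic

variable {A : Type} [MTLAlgebra A]

open MTLAlgebra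

lemma le_res_iff {x y z : A} : x ≤ res y z ↔ x * y ≤ z := (residuation x y z).symm

lemma le_one' (x : A) : x ≤ 1 := by rw [one_eq_top]; exact le_top

lemma mul_mono {x y z w : A} (h : x ≤ y) (h' : z ≤ w) : x * z ≤ y * w := by
  have h1 : x * z ≤ y * z := by
    rw [residuation]
    exact h.trans (le_res_iff.2 le_rfl)
  have h2 : z * y ≤ w * y := by
    rw [residuation]
    exact h'.trans (le_res_iff.2 le_rfl)
  rw [mul_comm z y, mul_comm w y] at h2
  exact h1.trans h2

lemma res_eq_one {x y : A} : res x y = 1 ↔ x ≤ y := by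
  constructor
  · intro h
    have : (1 : A) ≤ res x y := h.ge
    rwa [le_res_iff, one_mul] at this
  · intro h
    refine le_antisymm (le_one' _) ?_
    rw [le_res_iff, one_mul]
    exact h

lemma res_mul_le (x y : A) : res x y * x ≤ y := le_res_iff.1 le_rfl

lemma mul_le_left' (x y : A) : x * y ≤ x := by
  have := mul_mono (le_refl x) (le_one' y)
  rwa [mul_one] at this

lemma mul_le_right' (x y : A) : x * y ≤ y := by
  rw [mul_comm]; exact mul_le_left' y x

lemma sup_mul (x y z : A) : (x ⊔ y) * z ≤ x * z ⊔ y * z := by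
  rw [residuation]
  exact sup_le (le_res_iff.2 le_sup_left) (le_res_iff.2 le_sup_right)

lemma sup_sq {u w : A} (h : u ⊔ w = 1) : u * u ⊔ w * w = 1 := by
  refine le_antisymm (le_one' _) ?_
  have h1 : (u ⊔ w) * ((u ⊔ w) * (u ⊔ w)) ≤ u * u ⊔ w * w := by
    refine (sup_mul _ _ _).trans (sup_le ?_ ?_)
    · rw [mul_comm u, mul_assoc]
      refine (sup_mul _ _ _).trans (sup_le ?_ ?_)
      · -- u * ((u ⊔ w) * u)
        refine le_sup_of_le_left ?_
        exact mul_mono le_rfl (mul_le_right' _ _)
      · -- w * ((u ⊔ w) * u)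
        rw [← mul_assoc, mul_comm w, mul_assoc]
        refine (sup_mul _ _ _).trans (sup_le ?_ ?_)
        · refine le_sup_of_le_left ?_
          exact mul_mono le_rfl (mul_le_right' _ _)
        · refine le_sup_of_le_right ?_
          exact mul_mono le_rfl (mul_le_left' _ _)
    · rw [mul_comm w, mul_assoc]
      refine (sup_mul _ _ _).trans (sup_le ?_ ?_)
      · -- u * ((u ⊔ w) * w)
        rw [← mul_assoc, mul_comm u, mul_assoc]
        refine (sup_mul _ _ _).trans (sup_le ?_ ?_)
        · refine le_sup_of_le_left ?_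
          exact mul_mono le_rfl (mul_le_left' _ _)
        · refine le_sup_of_le_right ?_
          exact mul_mono le_rfl (mul_le_right' _ _)
      · refine le_sup_of_le_right ?_
        exact mul_mono le_rfl (mul_le_right' _ _)
  rwa [h, one_mul, one_mul] at h1

end basic

lemma eval_subst {A : Type} [MTLAlgebra A] (v : ℕ → A) (σ : ℕ → Fm) (φ : Fm) :
    eval v (subst σ φ) = eval (fun n => eval v (σ n)) φ := by
  induction φ with
  | var n => rfl
  | zero => rfl
  | one => rfl
  | and φ ψ h1 h2 => simp only [subst, eval, h1, h2]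
  | or φ ψ h1 h2 => simp only [subst, eval, h1, h2]
  | mul φ ψ h1 h2 => simp only [subst, eval, h1, h2]
  | imp φ ψ h1 h2 => simp only [subst, eval, h1, h2]

lemma eval_congr {A : Type} [MTLAlgebra A] (v w : ℕ → A) (φ : Fm) (h : ∀ n ∈ vars φ, v n = w n) :
    eval v φ = eval w φ := by
  induction φ with
  | var n => exact h n rfl
  | zero => rfl
  | one => rfl
  | and φ ψ h1 h2 =>
    simp only [eval, h1 fun n hn => h n (Or.inl hn), h2 fun n hn => h n (Or.inr hn)]
  | or φ ψ h1 h2 =>
    simp only [eval, h1 fun n hn => h n (Or.inl hn), h2 fun n hn => h n (Or.inr hn)]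
  | mul φ ψ h1 h2 =>
    simp only [eval, h1 fun n hn => h n (Or.inl hn), h2 fun n hn => h n (Or.inr hn)]
  | imp φ ψ h1 h2 =>
    simp only [eval, h1 fun n hn => h n (Or.inl hn), h2 fun n hn => h n (Or.inr hn)]

/-- soundness -/
lemma Ext.sound {S Γ : Set Fm} {φ : Fm} (h : Ext S Γ φ) {A : Type} [MTLAlgebra A] (v : ℕ → A)
    (hS : ∀ γ ∈ S, eval v γ = 1) (hΓ : ∀ γ ∈ Γ, eval v γ = 1) : eval v φ = 1 := by
  induction h with
  | prem h => exact hΓ _ h
  | ax h => exact hS _ h
  | thm h => exact h A v (by simp)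
  | mp _ _ h1 h2 =>
    simp only [eval] at h1
    rw [res_eq_one, h2] at h1
    exact le_antisymm (le_one' _) h1

end Pool.Agent.V11238.MTL
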