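import Mathlib
import Pool.Agent.V11238.MTL.Basic

/-!
# The deductive interpolation property of the logic of a finite algebra with definable elements
-/

set_option autoImplicit false

namespace Pool.Agent.V11238.MTL

open MTLAlgebra

/-- the set of formulas valid in `K` -/
def Th (K : Type) [MTLAlgebra K] : Set Fm := {φ | ∀ v : ℕ → K, eval v φ = 1}

lemma th_subst (K : Type) [MTLAlgebra K] : SubstClosed (Th K) := by
  intro φ hφ σ v
  rw [eval_subst]
  exact hφ _

/-- nilpotency and definability of the elements -/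
structure Good (K : Type) [MTLAlgebra K] where
  nil : ∀ x y : K, x ≠ 1 → res x (res x (res x (res x y))) = 1
  chi : K → Fm
  chi_self : ∀ s : K, eval (fun _ => s) (chi s) = 1
  chi_ne : ∀ s t : K, t ≠ s → eval (fun _ => t) (chi s) = ⊥
  nontriv : (1 : K) ≠ ⊥

lemma res_one_left {A : Type} [MTLAlgebra A] (x : A) : res 1 x = x := by
  apply le_antisymm
  · have := res_mul_le (1 : A) x
    rwa [mul_one] at this
  · rw [le_res_iff, mul_one]

lemma res_one_right {A : Type} [MTLAlgebra A] (x : A) : res x 1 = 1 := res_eq_one.2 (le_one' x)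

lemma res_bot_left {A : Type} [MTLAlgebra A] (x : A) : res ⊥ x = 1 := res_eq_one.2 bot_le

/-- four fold implications -/
def imp4 (γ ψ : Fm) : Fm := .imp γ (.imp γ (.imp γ (.imp γ ψ)))

def nest (L : List Fm) (φ : Fm) : Fm := L.foldr imp4 φ

lemma eval_nest {K : Type} [MTLAlgebra K] (G : Good K) (v : ℕ → K) (L : List Fm) (φ : Fm)
    (h : (∀ γ ∈ L, eval v γ = 1) → eval v φ = 1) : eval v (nest L φ) = 1 := by
  induction L with
  | nil => exact h (by simp)
  | cons γ L ih =>
    show eval v (imp4 γ (nest L φ)) = 1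
    by_cases hγ : eval v γ = 1
    · have h1 := ih fun hL => h (by
        intro δ hδ
        rcases List.mem_cons.1 hδ with rfl | hδ
        · exact hγ
        · exact hL δ hδ)
      simp only [imp4, eval, hγ, h1, res_one_right]
    · simp only [imp4, eval]
      exact G.nil _ _ hγ

lemma ext_nest {S Γ : Set Fm} (L : List Fm) (φ : Fm) (hL : ∀ γ ∈ L, γ ∈ Γ)
    (h : Ext S Γ (nest L φ)) : Ext S Γ φ := by
  induction L with
  | nil => exact h
  | cons γ L ih =>
    have hγ : Ext S Γ γ := .prem (hL γ (by simp))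
    exact ih (fun δ hδ => hL δ (by simp [hδ])) (((((h : Ext S Γ (imp4 γ (nest L φ))).mp hγ).mp
      hγ).mp hγ).mp hγ)

section compact

variable {K : Type} [MTLAlgebra K] [Finite K]

lemma finite_inter {ι : Type} (P : ι → (ℕ → K) → Prop)
    (hP : ∀ i, ∃ N : ℕ, ∀ v w : ℕ → K, (∀ n ≤ N, v n = w n) → P i v → P i w)
    (h : ∀ s : Finset ι, ∃ v, ∀ i ∈ s, P i v) : ∃ v, ∀ i, P i v := by
  let _ : TopologicalSpace K := ⊥
  have _ : DiscreteTopology K := ⟨rfl⟩
  have hc : ∀ i, IsClosed {v | P i v} := by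
    intro i
    obtain ⟨N, hN⟩ := hP i
    have : {v | P i v}ᶜ = ⋃ w ∈ {w | ¬ P i w}, ⋂ n ∈ Finset.range (N + 1), {v : ℕ → K | v n = w n} := by
      ext v
      simp only [Set.mem_compl_iff, Set.mem_ofPred_eq, Set.mem_iUnion, Set.mem_iInter,
        Finset.mem_range, exists_prop]
      constructor
      · intro hv
        exact ⟨v, hv, fun _ _ => rfl⟩
      · rintro ⟨w, hw, h1⟩ hv
        exact hw (hN v w (fun n hn => h1 n (by omega)) hv)
    rw [← isOpen_compl_iff, this]
    refine isOpen_biUnion fun w _ => isOpen_biInter_finset fun n _ => ?_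
    have h1 : Continuous fun v : ℕ → K => v n := continuous_apply n
    exact (isOpen_discrete ({w n} : Set K)).preimage h1
  have h2 : (⋂ i, {v | P i v}).Nonempty := CompactSpace.iInter_nonempty hc (fun s => by
    obtain ⟨v, hv⟩ := h s
    exact ⟨v, by simpa using hv⟩)
  obtain ⟨v, hv⟩ := h2
  exact ⟨v, by simpa using hv⟩

lemma vars_bdd (φ : Fm) : ∃ N, ∀ n ∈ vars φ, n ≤ N := by
  induction φ with
  | var n => exact ⟨n, fun m hm => le_of_eq hm⟩
  | zero => exact ⟨0, fun m hm => absurd hm (by simp [vars])⟩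
  | one => exact ⟨0, fun m hm => absurd hm (by simp [vars])⟩
  | and φ ψ h1 h2 | or φ ψ h1 h2 | mul φ ψ h1 h2 | imp φ ψ h1 h2 =>
    obtain ⟨N, hN⟩ := h1
    obtain ⟨M, hM⟩ := h2
    refine ⟨max N M, fun n hn => ?_⟩
    rcases hn with hn | hn
    · exact (hN n hn).trans (le_max_left _ _)
    · exact (hM n hn).trans (le_max_right _ _)

lemma eval_local (φ : Fm) : ∃ N, ∀ v w : ℕ → K, (∀ n ≤ N, v n = w n) → eval v φ = eval w φ := by
  obtain ⟨N, hN⟩ := vars_bdd φ
  exact ⟨N, fun v w h => eval_congr v w φ fun n hn => h n (hN n hn)⟩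

lemma finite_conseq (Γ : Set Fm) (φ : Fm) (h : ∀ v : ℕ → K, (∀ γ ∈ Γ, eval v γ = 1) → eval v φ = 1) :
    ∃ L : List Fm, (∀ γ ∈ L, γ ∈ Γ) ∧ ∀ v : ℕ → K, (∀ γ ∈ L, eval v γ = 1) → eval v φ = 1 := by
  classical
  by_contra hcon
  push Not at hcon
  obtain ⟨v, hv⟩ := finite_inter (K := K) (ι := Fm)
    (fun γ v => (γ ∈ Γ → eval v γ = 1) ∧ eval v φ ≠ 1) (by
      intro γ
      obtain ⟨N, hN⟩ := eval_local (K := K) γ
      obtain ⟨M, hM⟩ := eval_local (K := K) φ
      refine ⟨max N M, fun v w hvw => ?_⟩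
      rw [hN v w fun n hn => hvw n (hn.trans (le_max_left _ _)),
        hM v w fun n hn => hvw n (hn.trans (le_max_right _ _))]
      exact id) (by
      intro s
      obtain ⟨v, h1, h2⟩ := hcon (s.toList.filter (· ∈ Γ)) (by
        intro γ hγ
        simp only [List.mem_filter, Finset.mem_toList, decide_eq_true_eq] at hγ
        exact hγ.2)
      refine ⟨v, fun γ hγ => ⟨fun hγ' => h1 γ ?_, h2⟩⟩
      simp only [List.mem_filter, Finset.mem_toList, decide_eq_true_eq]
      exact ⟨hγ, hγ'⟩)
  exact (hv .one).2 (h v fun γ hγ => (hv γ).1 hγ)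

lemma ext_th (G : Good K) (Γ : Set Fm) (φ : Fm) :
    Ext (Th K) Γ φ ↔ ∀ v : ℕ → K, (∀ γ ∈ Γ, eval v γ = 1) → eval v φ = 1 := by
  constructor
  · intro h v hv
    exact h.sound v (fun γ hγ => hγ v) hv
  · intro h
    obtain ⟨L, hL, h1⟩ := finite_conseq Γ φ h
    exact ext_nest L φ hL (.ax fun v => eval_nest G v L φ (h1 v))

lemma vars_subst_const (φ : Fm) (x : ℕ) : vars (subst (fun _ => .var x) φ) ⊆ {x} := by
  induction φ with
  | var n => exact subset_rfl
  | zero => exact Set.empty_subset _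
  | one => exact Set.empty_subset _
  | and φ ψ h1 h2 | or φ ψ h1 h2 | mul φ ψ h1 h2 | imp φ ψ h1 h2 => exact Set.union_subset h1 h2

/-- the valuation differs from `w` somewhere on `L` -/
def differ (G : Good K) (w : ℕ → K) (L : List ℕ) : Fm :=
  L.foldr (fun x ψ => .imp (subst (fun _ => .var x) (G.chi (w x))) ψ) .zero

lemma vars_differ (G : Good K) (w : ℕ → K) (L : List ℕ) : vars (differ G w L) ⊆ {x | x ∈ L} := by
  induction L with
  | nil => exact Set.empty_subset _
  | cons x L ih =>
    refine Set.union_subset ?_ ?_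
    · refine (vars_subst_const _ _).trans ?_
      intro y hy
      rw [Set.mem_singleton_iff] at hy
      rw [hy]
      exact List.mem_cons_self
    · intro y hy
      exact List.mem_cons_of_mem _ (ih hy)

lemma eval_differ_eq (G : Good K) (w v : ℕ → K) (L : List ℕ) (h : ∀ x ∈ L, v x = w x) :
    eval v (differ G w L) = ⊥ := by
  induction L with
  | nil => rfl
  | cons x L ih =>
    show res (eval v (subst (fun _ => .var x) (G.chi (w x)))) (eval v (differ G w L)) = ⊥
    rw [ih fun y hy => h y (List.mem_cons_of_mem _ hy), eval_subst]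
    simp only [eval]
    rw [h x List.mem_cons_self, G.chi_self, res_one_left]

lemma eval_differ_ne (G : Good K) (w v : ℕ → K) (L : List ℕ) (h : ∃ x ∈ L, v x ≠ w x) :
    eval v (differ G w L) = 1 := by
  induction L with
  | nil => simp at h
  | cons x L ih =>
    show res (eval v (subst (fun _ => .var x) (G.chi (w x)))) (eval v (differ G w L)) = 1
    by_cases hx : v x = w x
    · rw [ih, res_one_right]
      obtain ⟨y, hy, h1⟩ := h
      rcases List.mem_cons.1 hy with rfl | hy
      · exact absurd hx h1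
      · exact ⟨y, hy, h1⟩
    · rw [eval_subst]
      simp only [eval]
      rw [G.chi_ne _ _ hx, res_bot_left]

/-- the logic of a good finite algebra has the deductive interpolation property -/
theorem dip_th (G : Good K) : DIP (Th K) := by
  classical
  intro Γ φ hφ
  rw [ext_th G] at hφ
  set X : Set ℕ := (⋃ γ ∈ Γ, vars γ) ∩ vars φ with hX
  refine ⟨{δ | vars δ ⊆ X ∧ Ext (Th K) Γ δ}, fun δ hδ => hδ.1, fun δ hδ => hδ.2, ?_⟩
  rw [ext_th G]
  intro w hw
  -- a valuation that satisfies `Γ` and agrees with `w` on the common variables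
  obtain ⟨v, hv⟩ : ∃ v : ℕ → K, (∀ γ ∈ Γ, eval v γ = 1) ∧ ∀ x ∈ X, v x = w x := by
    obtain ⟨v, hv⟩ := finite_inter (K := K) (ι := Fm × ℕ)
      (fun i v => (i.1 ∈ Γ → eval v i.1 = 1) ∧ (i.2 ∈ X → v i.2 = w i.2)) (by
        rintro ⟨γ, x⟩
        obtain ⟨N, hN⟩ := eval_local (K := K) γ
        refine ⟨max N x, fun v u hvu => ?_⟩
        simp only
        rw [hN v u fun n hn => hvu n (hn.trans (le_max_left _ _)), hvu x (le_max_right _ _)]
        exact id) (by
        intro s
        by_contra hcon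
        push Not at hcon
        set L := (s.toList.map Prod.snd).filter (· ∈ X) with hL
        have hLX : ∀ x ∈ L, x ∈ X := by
          intro x hx
          rw [hL, List.mem_filter, decide_eq_true_eq] at hx
          exact hx.2
        have h1 : differ G w L ∈ {δ | vars δ ⊆ X ∧ Ext (Th K) Γ δ} := by
          refine ⟨(vars_differ G w L).trans hLX, ?_⟩
          rw [ext_th G]
          intro v hv
          apply eval_differ_ne
          obtain ⟨⟨γ, x⟩, hi, h2⟩ := hcon v
          simp only at h2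
          have h3 := h2 fun hγ => hv γ hγ
          refine ⟨x, ?_, h3.2⟩
          rw [hL, List.mem_filter, decide_eq_true_eq]
          refine ⟨?_, h3.1⟩
          exact List.mem_map.2 ⟨(γ, x), Finset.mem_toList.2 hi, rfl⟩
        have h2 := hw _ h1
        rw [eval_differ_eq G w w L fun _ _ => rfl] at h2
        exact G.nontriv h2.symm)
    exact ⟨v, fun γ hγ => (hv (γ, 0)).1 hγ, fun x hx => (hv (.one, x)).2 hx⟩
  obtain ⟨hv1, hv2⟩ := hv
  set u : ℕ → K := fun x => if x ∈ ⋃ γ ∈ Γ, vars γ then v x else w x with hu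
  have h1 : ∀ γ ∈ Γ, eval u γ = 1 := by
    intro γ hγ
    rw [← hv1 γ hγ]
    apply eval_congr
    intro n hn
    rw [hu]
    simp only
    rw [if_pos (Set.mem_biUnion hγ hn)]
  have h2 := hφ u h1
  rw [← h2]
  apply eval_congr
  intro n hn
  rw [hu]
  simp only
  split_ifs with h3
  · exact (hv2 n ⟨h3, hn⟩).symm
  · rfl

end compact

end Pool.Agent.V11238.MTL
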