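import Mathlib
import Pool.Agent.V11238.MTL.Basic

/-!
# Completeness: the derivations with modus ponens give the semantic consequence relation
-/

set_option autoImplicit false

namespace Pool.Agent.V11238.MTL

open MTLAlgebra

section valid

/-- one premise -/
lemma Ext.one {S Γ : Set Fm} {φ ψ : Fm} (h : Ext S Γ φ)
    (hv : ∀ (A : Type) [MTLAlgebra A] (v : ℕ → A), eval v φ ≤ eval v ψ) : Ext S Γ ψ := by
  refine Ext.mp (.thm ?_) h
  intro A _ v _
  exact res_eq_one.2 (hv A v)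

/-- two premises -/
lemma Ext.two {S Γ : Set Fm} {φ ψ χ : Fm} (h : Ext S Γ φ) (h' : Ext S Γ ψ)
    (hv : ∀ (A : Type) [MTLAlgebra A] (v : ℕ → A), eval v φ * eval v ψ ≤ eval v χ) :
    Ext S Γ χ := by
  refine Ext.mp (Ext.mp (.thm (φ := .imp φ (.imp ψ χ)) ?_) h) h'
  intro A _ v _
  refine res_eq_one.2 (le_res_iff.2 (hv A v))

lemma Ext.valid {S Γ : Set Fm} {φ : Fm}
    (hv : ∀ (A : Type) [MTLAlgebra A] (v : ℕ → A), eval v φ = 1) : Ext S Γ φ :=
  .thm fun A _ v _ => hv A v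

end valid

variable (S Γ : Set Fm)

/-- the Lindenbaum congruence -/
def lindSetoid : Setoid Fm where
  r φ ψ := Ext S Γ (.imp φ ψ) ∧ Ext S Γ (.imp ψ φ)
  iseqv := by
    refine ⟨fun φ => ?_, fun h => ⟨h.2, h.1⟩, fun h h' => ⟨?_, ?_⟩⟩
    · have : Ext S Γ (.imp φ φ) := .valid fun A _ v => res_eq_one.2 le_rfl
      exact ⟨this, this⟩
    · refine Ext.two h.1 h'.1 fun A _ v => ?_
      simp only [eval]
      rw [le_res_iff, mul_comm (res _ _), mul_assoc]
      exact (mul_mono le_rfl (res_mul_le _ _)).trans (res_mul_le _ _)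
    · refine Ext.two h'.2 h.2 fun A _ v => ?_
      simp only [eval]
      rw [le_res_iff, mul_comm (res _ _), mul_assoc]
      exact (mul_mono le_rfl (res_mul_le _ _)).trans (res_mul_le _ _)

/-- the Lindenbaum algebra -/
def Lind : Type := Quotient (lindSetoid S Γ)

variable {S Γ}

lemma tr {φ ψ χ : Fm} (h : Ext S Γ (.imp φ ψ)) (h' : Ext S Γ (.imp ψ χ)) :
    Ext S Γ (.imp φ χ) := by
  refine Ext.two h h' fun A _ v => ?_
  simp only [eval]
  rw [le_res_iff, mul_comm (res _ _), mul_assoc]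
  exact (mul_mono le_rfl (res_mul_le _ _)).trans (res_mul_le _ _)

lemma and_cong {φ ψ φ' ψ' : Fm} (h : Ext S Γ (.imp φ φ')) (h' : Ext S Γ (.imp ψ ψ')) :
    Ext S Γ (.imp (.and φ ψ) (.and φ' ψ')) := by
  refine Ext.two h h' fun A _ v => ?_
  simp only [eval]
  rw [le_res_iff]
  refine le_inf ?_ ?_
  · exact (mul_mono (mul_le_left' _ _) inf_le_left).trans (res_mul_le _ _)
  · exact (mul_mono (mul_le_right' _ _) inf_le_right).trans (res_mul_le _ _)

lemma or_cong {φ ψ φ' ψ' : Fm} (h : Ext S Γ (.imp φ φ')) (h' : Ext S Γ (.imp ψ ψ')) :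
    Ext S Γ (.imp (.or φ ψ) (.or φ' ψ')) := by
  refine Ext.two h h' fun A _ v => ?_
  simp only [eval]
  rw [le_res_iff, mul_comm]
  refine (sup_mul _ _ _).trans (sup_le ?_ ?_)
  · rw [mul_comm]
    exact ((mul_mono (mul_le_left' _ _) le_rfl).trans (res_mul_le _ _)).trans le_sup_left
  · rw [mul_comm]
    exact ((mul_mono (mul_le_right' _ _) le_rfl).trans (res_mul_le _ _)).trans le_sup_right

lemma mul_cong {φ ψ φ' ψ' : Fm} (h : Ext S Γ (.imp φ φ')) (h' : Ext S Γ (.imp ψ ψ')) :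
    Ext S Γ (.imp (.mul φ ψ) (.mul φ' ψ')) := by
  refine Ext.two h h' fun A _ v => ?_
  simp only [eval]
  rw [le_res_iff]
  calc _ = (res (eval v φ) (eval v φ') * eval v φ) * (res (eval v ψ) (eval v ψ') * eval v ψ) := by
        ac_rfl
    _ ≤ _ := mul_mono (res_mul_le _ _) (res_mul_le _ _)

lemma imp_cong {φ ψ φ' ψ' : Fm} (h : Ext S Γ (.imp φ' φ)) (h' : Ext S Γ (.imp ψ ψ')) :
    Ext S Γ (.imp (.imp φ ψ) (.imp φ' ψ')) := by
  refine Ext.two h h' fun A _ v => ?_
  simp only [eval]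
  rw [le_res_iff, le_res_iff]
  calc _ = res (eval v ψ) (eval v ψ') * (res (eval v φ) (eval v ψ) *
        (res (eval v φ') (eval v φ) * eval v φ')) := by ac_rfl
    _ ≤ res (eval v ψ) (eval v ψ') * (res (eval v φ) (eval v ψ) * eval v φ) :=
        mul_mono le_rfl (mul_mono le_rfl (res_mul_le _ _))
    _ ≤ res (eval v ψ) (eval v ψ') * eval v ψ := mul_mono le_rfl (res_mul_le _ _)
    _ ≤ _ := res_mul_le _ _

def mk (φ : Fm) : Lind S Γ := Quotient.mk (lindSetoid S Γ) φ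

def leL (x y : Lind S Γ) : Prop :=
  Quotient.liftOn₂ x y (fun φ ψ => Ext S Γ (.imp φ ψ)) (by
    rintro φ ψ φ' ψ' ⟨h1, h2⟩ ⟨h3, h4⟩
    exact propext ⟨fun h => tr (tr h2 h) h3, fun h => tr (tr h1 h) h4⟩)

def andL (x y : Lind S Γ) : Lind S Γ :=
  Quotient.liftOn₂ x y (fun φ ψ => mk (.and φ ψ)) (by
    rintro φ ψ φ' ψ' ⟨h1, h2⟩ ⟨h3, h4⟩
    exact Quotient.sound ⟨and_cong h1 h3, and_cong h2 h4⟩)

def orL (x y : Lind S Γ) : Lind S Γ :=
  Quotient.liftOn₂ x y (fun φ ψ => mk (.or φ ψ)) (by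
    rintro φ ψ φ' ψ' ⟨h1, h2⟩ ⟨h3, h4⟩
    exact Quotient.sound ⟨or_cong h1 h3, or_cong h2 h4⟩)

def mulL (x y : Lind S Γ) : Lind S Γ :=
  Quotient.liftOn₂ x y (fun φ ψ => mk (.mul φ ψ)) (by
    rintro φ ψ φ' ψ' ⟨h1, h2⟩ ⟨h3, h4⟩
    exact Quotient.sound ⟨mul_cong h1 h3, mul_cong h2 h4⟩)

def impL (x y : Lind S Γ) : Lind S Γ :=
  Quotient.liftOn₂ x y (fun φ ψ => mk (.imp φ ψ)) (by
    rintro φ ψ φ' ψ' ⟨h1, h2⟩ ⟨h3, h4⟩
    exact Quotient.sound ⟨imp_cong h2 h3, imp_cong h1 h4⟩)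

lemma ind {p : Lind S Γ → Prop} (h : ∀ φ, p (mk φ)) (x : Lind S Γ) : p x := Quotient.inductionOn x h

lemma mk_eq {φ ψ : Fm} (h : Ext S Γ (.imp φ ψ)) (h' : Ext S Γ (.imp ψ φ)) :
    (mk φ : Lind S Γ) = mk ψ := Quotient.sound ⟨h, h'⟩

lemma mk_eq' {φ ψ : Fm} (h : ∀ (A : Type) [MTLAlgebra A] (v : ℕ → A), eval v φ = eval v ψ) :
    (mk φ : Lind S Γ) = mk ψ :=
  mk_eq (.valid fun A _ v => res_eq_one.2 (h A v).le) (.valid fun A _ v => res_eq_one.2 (h A v).ge)

noncomputable instance lindAlgebra : MTLAlgebra (Lind S Γ) where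
  le := leL
  le_refl := ind fun φ => (.valid fun A _ v => res_eq_one.2 le_rfl : Ext S Γ (.imp φ φ))
  le_trans := ind fun φ => ind fun ψ => ind fun χ => fun h h' =>
    tr (φ := φ) (ψ := ψ) (χ := χ) h h'
  le_antisymm := ind fun φ => ind fun ψ => fun h h' => mk_eq h h'
  sup := orL
  le_sup_left := ind fun φ => ind fun ψ =>
    (.valid fun A _ v => res_eq_one.2 le_sup_left : Ext S Γ (.imp φ (.or φ ψ)))
  le_sup_right := ind fun φ => ind fun ψ =>
    (.valid fun A _ v => res_eq_one.2 le_sup_right : Ext S Γ (.imp ψ (.or φ ψ)))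
  sup_le := ind fun φ => ind fun ψ => ind fun χ => fun h h' =>
    (tr (or_cong (φ := φ) (ψ := ψ) (φ' := χ) (ψ' := χ) h h')
      (.valid fun A _ v => res_eq_one.2 (sup_le le_rfl le_rfl)) : Ext S Γ (.imp (.or φ ψ) χ))
  inf := andL
  inf_le_left := ind fun φ => ind fun ψ =>
    (.valid fun A _ v => res_eq_one.2 inf_le_left : Ext S Γ (.imp (.and φ ψ) φ))
  inf_le_right := ind fun φ => ind fun ψ =>
    (.valid fun A _ v => res_eq_one.2 inf_le_right : Ext S Γ (.imp (.and φ ψ) ψ))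
  le_inf := ind fun φ => ind fun ψ => ind fun χ => fun h h' =>
    (tr (.valid fun A _ v => res_eq_one.2 (le_inf le_rfl le_rfl))
      (and_cong (φ := φ) (ψ := φ) (φ' := ψ) (ψ' := χ) h h') : Ext S Γ (.imp φ (.and ψ χ)))
  top := mk .one
  bot := mk .zero
  le_top := ind fun φ => (.valid fun A _ v => res_eq_one.2 (le_one' _) : Ext S Γ (.imp φ .one))
  bot_le := ind fun φ => (.valid fun A _ v => res_eq_one.2 bot_le : Ext S Γ (.imp .zero φ))
  mul := mulL
  one := mk .one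
  mul_assoc := ind fun φ => ind fun ψ => ind fun χ => mk_eq' fun A _ v => mul_assoc _ _ _
  mul_comm := ind fun φ => ind fun ψ => mk_eq' fun A _ v => mul_comm _ _
  one_mul := ind fun φ => mk_eq' fun A _ v => one_mul _
  mul_one := ind fun φ => mk_eq' fun A _ v => mul_one _
  res := impL
  one_eq_top := rfl
  residuation := ind fun φ => ind fun ψ => ind fun χ => by
    show Ext S Γ (.imp (.mul φ ψ) χ) ↔ Ext S Γ (.imp φ (.imp ψ χ))
    constructor
    · intro h
      refine h.one fun A _ v => ?_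
      simp only [eval]
      rw [le_res_iff, le_res_iff, mul_assoc]
      exact res_mul_le _ _
    · intro h
      refine h.one fun A _ v => ?_
      simp only [eval]
      rw [le_res_iff, ← mul_assoc, ← le_res_iff]
      exact res_mul_le _ _
  prelinearity := ind fun φ => ind fun ψ => by
    show (mk (.or (.imp φ ψ) (.imp ψ φ)) : Lind S Γ) = mk .one
    exact mk_eq' fun A _ v => prelinearity _ _

lemma eval_mk (φ : Fm) : eval (fun n => (mk (.var n) : Lind S Γ)) φ = mk φ := by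
  induction φ with
  | var n => rfl
  | zero => rfl
  | one => rfl
  | and φ ψ h1 h2 => simp only [eval, h1, h2]; rfl
  | or φ ψ h1 h2 => simp only [eval, h1, h2]; rfl
  | mul φ ψ h1 h2 => simp only [eval, h1, h2]; rfl
  | imp φ ψ h1 h2 => simp only [eval, h1, h2]; rfl

lemma mk_one_iff (φ : Fm) : (mk φ : Lind S Γ) = 1 ↔ Ext S Γ φ := by
  constructor
  · intro h
    have h1 : leL (mk .one) (mk φ : Lind S Γ) := by
      rw [h]
      exact (.valid fun A _ v => res_eq_one.2 le_rfl : Ext S Γ (.imp .one .one))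
    exact Ext.mp h1 (.valid fun A _ v => rfl)
  · intro h
    exact mk_eq (.valid fun A _ v => res_eq_one.2 (le_one' _)) (h.one fun A _ v => by
      simp only [eval]
      rw [le_res_iff, mul_one])

/-- The axiomatic extension by `S`, defined by derivations with modus ponens, is the semantic
consequence relation with the additional premises `S`. -/
theorem ext_iff_conseq (S Γ : Set Fm) (φ : Fm) : Ext S Γ φ ↔ Conseq (S ∪ Γ) φ := by
  constructor
  · intro h A _ v hv
    exact h.sound v (fun γ hγ => hv γ (Or.inl hγ)) fun γ hγ => hv γ (Or.inr hγ)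
  · intro h
    have h1 := h (Lind S Γ) (fun n => mk (.var n)) (by
      intro γ hγ
      rw [eval_mk, mk_one_iff]
      rcases hγ with hγ | hγ
      · exact .ax hγ
      · exact .prem hγ)
    rwa [eval_mk, mk_one_iff] at h1

end Pool.Agent.V11238.MTL
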