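import Mathlib
import Pool.Agent.V11238.MTL.Fin

/-!
# Two five-element chains without a common amalgam
-/

set_option autoImplicit false

namespace Pool.Agent.V11238.MTL

open MTLAlgebra

/-- the five-element Lukasiewicz chain -/
def K1 : Type := Fin 5

instance : DecidableEq K1 := inferInstanceAs (DecidableEq (Fin 5))
instance : Fintype K1 := inferInstanceAs (Fintype (Fin 5))
instance : LinearOrder K1 := inferInstanceAs (LinearOrder (Fin 5))
instance : BoundedOrder K1 := inferInstanceAs (BoundedOrder (Fin 5))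

def mul1 (x y : Fin 5) : Fin 5 := ⟨x.1 + y.1 - 4, by omega⟩
def res1 (x y : Fin 5) : Fin 5 := ⟨min 4 (4 - x.1 + y.1), by omega⟩

instance : MTLAlgebra K1 where
  mul := mul1
  one := (4 : Fin 5)
  mul_assoc := by decide
  mul_comm := by decide
  one_mul := by decide
  mul_one := by decide
  res := res1
  one_eq_top := by decide
  residuation := by decide
  prelinearity := by decide

/-- the other chain -/
def K2 : Type := Fin 5

instance : DecidableEq K2 := inferInstanceAs (DecidableEq (Fin 5))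
instance : Fintype K2 := inferInstanceAs (Fintype (Fin 5))
instance : LinearOrder K2 := inferInstanceAs (LinearOrder (Fin 5))
instance : BoundedOrder K2 := inferInstanceAs (BoundedOrder (Fin 5))

def mul2 (x y : Fin 5) : Fin 5 :=
  if x = 4 then y else if y = 4 then x else if 5 ≤ x.1 + y.1 then 1 else 0
def res2 (x y : Fin 5) : Fin 5 :=
  if x ≤ y then 4 else if x = 4 then y else if 1 ≤ y then 3 else ⟨4 - x.1, by omega⟩

instance : MTLAlgebra K2 where
  mul := mul2
  one := (4 : Fin 5)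
  mul_assoc := by decide
  mul_comm := by decide
  one_mul := by decide
  mul_one := by decide
  res := res2
  one_eq_top := by decide
  residuation := by decide
  prelinearity := by decide

def p4 (φ : Fm) : Fm := .mul (.mul φ φ) (.mul φ φ)
def ng (φ : Fm) : Fm := .imp φ .zero
def eqv (φ ψ : Fm) : Fm := .mul (.imp φ ψ) (.imp ψ φ)

def x0 : Fm := .var 0

def chiA (φ : Fm) : Fm := p4 (eqv φ (ng φ))

def chi1 (s : K1) : Fm :=
  if s = (4 : Fin 5) then p4 x0 else if s = (0 : Fin 5) then p4 (ng x0)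
  else if s = (2 : Fin 5) then chiA x0 else if s = (3 : Fin 5) then chiA (.mul x0 x0)
  else chiA (.mul (ng x0) (ng x0))

def chi2 (s : K2) : Fm :=
  if s = (4 : Fin 5) then p4 x0 else if s = (0 : Fin 5) then p4 (ng x0)
  else if s = (2 : Fin 5) then chiA x0 else if s = (3 : Fin 5) then p4 (eqv (.mul x0 x0) (ng x0))
  else p4 (eqv (.mul (ng x0) (ng x0)) (ng (ng x0)))

def good1 : Good K1 where
  nil := by decide
  chi := chi1
  chi_self := by decide
  chi_ne := by decide
  nontriv := by decide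

def good2 : Good K2 where
  nil := by decide
  chi := chi2
  chi_self := by decide
  chi_ne := by decide
  nontriv := by decide

instance : Finite K1 := Finite.of_fintype _
instance : Finite K2 := Finite.of_fintype _

/-! ### the formulas -/

def va : Fm := .var 0
def vb : Fm := .var 1
def vc : Fm := .var 2

def g1 : Fm := .imp (.mul vb vb) va
def g2 : Fm := .imp va (.mul vb vb)
def g3 : Fm := .imp (.mul va va) .zero
def al : Fm := .imp (ng vc) (.mul vc va)
def be : Fm := .imp (.imp va (.mul vc va)) vc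
def phi : Fm := .imp (.mul (.mul (.mul al al) (.mul be be)) va) (.mul vc vc)

lemma key {A : Type} [MTLAlgebra A] (a b c G1 G2 G3 α β : A) (h1 : G1 * (b * b) ≤ a)
    (h2 : G2 * a ≤ b * b) (h3 : G3 * (a * a) ≤ ⊥) (hα : α * res c ⊥ ≤ c * a)
    (hβ : β * res a (c * a) ≤ c) :
    G1 * G1 * G3 * G3 * G2 * (α * α * (β * β) * a) ≤ c * c := by
  set u := res b c with hu
  set w := res c b with hw
  have hu' : u * b ≤ c := res_mul_le b c
  have hw' : w * c ≤ b := res_mul_le c b
  have hsup : u * u ⊔ w * w = 1 := sup_sq (prelinearity b c)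
  set M := G1 * G1 * G3 * G3 * G2 * (α * α * (β * β) * a) with hM
  have e1 : u * u * M ≤ c * c := by
    calc u * u * M = (G1 * G1 * G3 * G3 * (α * α * (β * β))) * (u * u * (G2 * a)) := by
          rw [hM]; ac_rfl
      _ ≤ u * u * (G2 * a) := mul_le_right' _ _
      _ ≤ u * u * (b * b) := mul_mono le_rfl h2
      _ = (u * b) * (u * b) := by ac_rfl
      _ ≤ c * c := mul_mono hu' hu'
  have e2 : G1 * G3 * w * b * a ≤ res c ⊥ := by
    rw [le_res_iff]
    calc G1 * G3 * w * b * a * c = G1 * G3 * ((w * c) * b * a) := by ac_rfl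
      _ ≤ G1 * G3 * (b * b * a) := mul_mono le_rfl (mul_mono (mul_mono hw' le_rfl) le_rfl)
      _ = G3 * ((G1 * (b * b)) * a) := by ac_rfl
      _ ≤ G3 * (a * a) := mul_mono le_rfl (mul_mono h1 le_rfl)
      _ ≤ ⊥ := h3
  have e3 : α * (G1 * G3 * w * b) ≤ res a (c * a) := by
    rw [le_res_iff]
    calc α * (G1 * G3 * w * b) * a = α * (G1 * G3 * w * b * a) := by ac_rfl
      _ ≤ α * res c ⊥ := mul_mono le_rfl e2
      _ ≤ c * a := hα
  have e4 : β * (α * (G1 * G3 * w * b)) ≤ c := (mul_mono le_rfl e3).trans hβ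
  have e5 : w * w * M ≤ c * c := by
    calc w * w * M = (G1 * G1 * G3 * G3 * (α * α * (β * β)) * (w * w)) * (G2 * a) := by
          rw [hM]; ac_rfl
      _ ≤ (G1 * G1 * G3 * G3 * (α * α * (β * β)) * (w * w)) * (b * b) := mul_mono le_rfl h2
      _ = (β * (α * (G1 * G3 * w * b))) * (β * (α * (G1 * G3 * w * b))) := by ac_rfl
      _ ≤ c * c := mul_mono e4 e4
  calc M = (u * u ⊔ w * w) * M := by rw [hsup, one_mul]
    _ ≤ u * u * M ⊔ w * w * M := sup_mul _ _ _
    _ ≤ c * c := sup_le e1 e5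

lemma thm_phi : Conseq ∅ (.imp g1 (.imp g1 (.imp g3 (.imp g3 (.imp g2 phi))))) := by
  intro A _ v _
  have h := key (v 0) (v 1) (v 2) (eval v g1) (eval v g2) (eval v g3) (eval v al) (eval v be)
    (res_mul_le _ _) (res_mul_le _ _) (res_mul_le _ _) (res_mul_le _ _) (res_mul_le _ _)
  show res (eval v g1) (res (eval v g1) (res (eval v g3) (res (eval v g3) (res (eval v g2)
    (res (eval v al * eval v al * (eval v be * eval v be) * v 0) (v 2 * v 2)))))) = 1
  refine le_antisymm (le_one' _) ?_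
  rw [le_res_iff, le_res_iff, le_res_iff, le_res_iff, le_res_iff, le_res_iff, one_mul]
  exact h

lemma ext_phi (S : Set Fm) : Ext S {g1, g2, g3} phi := by
  have h1 : Ext S {g1, g2, g3} g1 := .prem (by simp)
  have h2 : Ext S {g1, g2, g3} g2 := .prem (by simp)
  have h3 : Ext S {g1, g2, g3} g3 := .prem (by simp)
  exact ((((Ext.thm thm_phi).mp h1).mp h1).mp h3).mp h3 |>.mp h2

/-! ### the common subalgebra -/

def e1 (i : Fin 3) : K1 := (⟨2 * i.1, by omega⟩ : Fin 5)
def e2 (i : Fin 3) : K2 := (⟨2 * i.1, by omega⟩ : Fin 5)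

lemma c_inf : ∀ i j : Fin 3, ∃ k, e1 i ⊓ e1 j = e1 k ∧ e2 i ⊓ e2 j = e2 k := by decide
lemma c_sup : ∀ i j : Fin 3, ∃ k, e1 i ⊔ e1 j = e1 k ∧ e2 i ⊔ e2 j = e2 k := by decide
lemma c_mul : ∀ i j : Fin 3, ∃ k, e1 i * e1 j = e1 k ∧ e2 i * e2 j = e2 k := by decide
lemma c_res : ∀ i j : Fin 3, ∃ k, res (e1 i) (e1 j) = e1 k ∧ res (e2 i) (e2 j) = e2 k := by
  decide
lemma c_one : ∀ k : Fin 3, e1 k = 1 → e2 k = 1 := by decide

lemma transfer (v : ℕ → K1) (w : ℕ → K2) (hv : v 0 = e1 1) (hw : w 0 = e2 1) (φ : Fm)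
    (h : vars φ ⊆ {0}) : ∃ k, eval v φ = e1 k ∧ eval w φ = e2 k := by
  induction φ with
  | var n =>
    have : n = 0 := h rfl
    subst this
    exact ⟨1, hv, hw⟩
  | zero => exact ⟨0, (by decide : (⊥ : K1) = e1 0), (by decide : (⊥ : K2) = e2 0)⟩
  | one => exact ⟨2, (by decide : (1 : K1) = e1 2), (by decide : (1 : K2) = e2 2)⟩
  | and φ ψ h1 h2 =>
    obtain ⟨i, hi, hi'⟩ := h1 (Set.union_subset_iff.1 h).1
    obtain ⟨j, hj, hj'⟩ := h2 (Set.union_subset_iff.1 h).2
    simp only [eval, hi, hi', hj, hj']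
    exact c_inf i j
  | or φ ψ h1 h2 =>
    obtain ⟨i, hi, hi'⟩ := h1 (Set.union_subset_iff.1 h).1
    obtain ⟨j, hj, hj'⟩ := h2 (Set.union_subset_iff.1 h).2
    simp only [eval, hi, hi', hj, hj']
    exact c_sup i j
  | mul φ ψ h1 h2 =>
    obtain ⟨i, hi, hi'⟩ := h1 (Set.union_subset_iff.1 h).1
    obtain ⟨j, hj, hj'⟩ := h2 (Set.union_subset_iff.1 h).2
    simp only [eval, hi, hi', hj, hj']
    exact c_mul i j
  | imp φ ψ h1 h2 =>
    obtain ⟨i, hi, hi'⟩ := h1 (Set.union_subset_iff.1 h).1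
    obtain ⟨j, hj, hj'⟩ := h2 (Set.union_subset_iff.1 h).2
    simp only [eval, hi, hi', hj, hj']
    exact c_res i j

def w1 (n : ℕ) : K1 := if n = 0 then (2 : Fin 5) else (3 : Fin 5)
def w2 (n : ℕ) : K2 := if n = 0 then (2 : Fin 5) else (3 : Fin 5)

theorem no_common (S₀ : Set Fm) (h1 : ∀ Γ φ, Ext S₀ Γ φ → Ext (Th K1) Γ φ)
    (h2 : ∀ Γ φ, Ext S₀ Γ φ → Ext (Th K2) Γ φ) : ¬ DIP S₀ := by
  intro hD
  obtain ⟨Δ, hv, hΔ, hφ⟩ := hD _ _ (ext_phi S₀)
  have hvars : ∀ δ ∈ Δ, vars δ ⊆ {0} := by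
    intro δ hδ n hn
    obtain ⟨h3, h4⟩ := hv δ hδ hn
    have h5 : n = 0 ∨ n = 1 := by
      simp only [Set.mem_iUnion, Set.mem_insert_iff, Set.mem_singleton_iff, exists_prop] at h3
      obtain ⟨γ, hγ, hn⟩ := h3
      rcases hγ with rfl | rfl | rfl <;>
        simp [vars, g1, g2, g3, va, vb] at hn <;> omega
    have h6 : n = 0 ∨ n = 2 := by
      simp [vars, phi, al, be, ng, va, vc] at h4
      omega
    rw [Set.mem_singleton_iff]
    omega
  have h3 : ∀ δ ∈ Δ, eval w2 δ = 1 := by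
    intro δ hδ
    have h4 := (ext_th good1 _ _).1 (h1 _ _ (hΔ δ hδ)) w1 (by
      intro γ hγ
      simp only [Set.mem_insert_iff, Set.mem_singleton_iff] at hγ
      rcases hγ with rfl | rfl | rfl <;> decide)
    obtain ⟨k, hk, hk'⟩ := transfer w1 w2 (by decide) (by decide) δ (hvars δ hδ)
    rw [hk'] 
    exact c_one k (hk.symm.trans h4)
  have h4 := (ext_th good2 _ _).1 (h2 _ _ hφ) w2 h3
  revert h4
  decide

end Pool.Agent.V11238.MTL
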