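import Mathlib
import Pool.Agent.V11238.MTL.Main
import Pool.Agent.V11238.MTL.Lind

/-!
# MP_acc005_lc, Q1 (negative answer)

There is no minimum axiomatic extension of MTL with the deductive interpolation property. In fact
there are two axiomatic extensions of MTL with this property (the logics of two chains with five
elements) such that no axiomatic extension of MTL with the property is contained in both.
-/

set_option autoImplicit false

namespace Pool.Agent.V11238.MTL.NoMinimum

open Pool.Agent.V11238.MTL

/-- There is no minimum axiomatic extension of MTL with the deductive interpolation property;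
moreover, two axiomatic extensions with the property have no common lower bound with it. -/
theorem result :
    (¬ ∃ S₀ : Set Fm, SubstClosed S₀ ∧ DIP S₀ ∧
      ∀ S : Set Fm, SubstClosed S → DIP S →
        ∀ (Γ : Set Fm) (φ : Fm), Ext S₀ Γ φ → Ext S Γ φ) ∧
    ∃ S₁ S₂ : Set Fm, SubstClosed S₁ ∧ DIP S₁ ∧ SubstClosed S₂ ∧ DIP S₂ ∧
      ∀ S₀ : Set Fm, SubstClosed S₀ →
        (∀ (Γ : Set Fm) (φ : Fm), Ext S₀ Γ φ → Ext S₁ Γ φ) →
        (∀ (Γ : Set Fm) (φ : Fm), Ext S₀ Γ φ → Ext S₂ Γ φ) → ¬ DIP S₀ := by
  refine ⟨?_, Th K1, Th K2, th_subst K1, dip_th good1, th_subst K2, dip_th good2,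
    fun S₀ _ h1 h2 => no_common S₀ h1 h2⟩
  rintro ⟨S₀, _, hD, h⟩
  exact no_common S₀ (h _ (th_subst K1) (dip_th good1)) (h _ (th_subst K2) (dip_th good2)) hD

end Pool.Agent.V11238.MTL.NoMinimum
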